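import Mathlib
import Pool.Agent.Lib.SAC63.LFin

set_option autoImplicit false

open CategoryTheory IsLocalRing

universe u

namespace Pool.Agent.Results.MP_c1c126_al.CubeType

theorem result (R : Type u) [CommRing R] [IsNoetherianRing R] [IsLocalRing R]
    [HasExt.{u} (ModuleCat.{u} R)]
    (rs : List R) (hrs : ∀ x ∈ rs, x ∈ maximalIdeal R)
    (hreg : RingTheory.Sequence.IsWeaklyRegular R rs)
    [IsLocalRing (R ⧸ Ideal.ofList rs)] [IsArtinianRing (R ⧸ Ideal.ofList rs)]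
    (h3 : Module.length (R ⧸ Ideal.ofList rs)
        (maximalIdeal (R ⧸ Ideal.ofList rs) ^ 3 : Ideal (R ⧸ Ideal.ofList rs)) ≤
      Module.length (R ⧸ Ideal.ofList rs)
        (maximalIdeal (R ⧸ Ideal.ofList rs)).annihilator)
    (hr : 2 ≤ Module.length (R ⧸ Ideal.ofList rs)
        (maximalIdeal (R ⧸ Ideal.ofList rs)).annihilator ∨
      4 ≤ Module.finrank (ResidueField (R ⧸ Ideal.ofList rs))
        (CotangentSpace (R ⧸ Ideal.ofList rs))) :
    ((Finite (ResidueField (R ⧸ Ideal.ofList rs)) ∨ ¬ ∃ r : ℕ, 2 ≤ r ∧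
      Module.length (R ⧸ Ideal.ofList rs) (R ⧸ Ideal.ofList rs) = ((4 * (r + 1) : ℕ) : ℕ∞) ∧
      Module.finrank (ResidueField (R ⧸ Ideal.ofList rs))
        (CotangentSpace (R ⧸ Ideal.ofList rs)) = r + 2 ∧
      Module.length (R ⧸ Ideal.ofList rs)
        (maximalIdeal (R ⧸ Ideal.ofList rs) ^ 3 : Ideal (R ⧸ Ideal.ofList rs)) = r ∧
      maximalIdeal (R ⧸ Ideal.ofList rs) ^ 4 = ⊥ ∧
      maximalIdeal (R ⧸ Ideal.ofList rs) ^ 3 =
        (maximalIdeal (R ⧸ Ideal.ofList rs)).annihilator) →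
      ∀ (M : ModuleCat.{u} R), Module.Finite R M → ∀ a : ℕ,
        (∀ i : ℕ, a < i → Subsingleton (Abelian.Ext M (ModuleCat.of R R) i)) →
        (∃ n : ℕ, ∀ i : ℕ, n ≤ i → Subsingleton (Abelian.Ext M M i)) →
        HasProjectiveDimensionLE M a ∧ (a = 0 → Module.Free R M) ∧
          ∀ i : ℕ, a < i → Subsingleton (Abelian.Ext M M i)) ∧
    (∀ (M : ModuleCat.{u} R), Module.Finite R M →
      (∀ i : ℕ, 0 < i → Subsingleton (Abelian.Ext M (ModuleCat.of R R) i)) →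
      (∀ i : ℕ, 0 < i → Subsingleton (Abelian.Ext M M i)) → Module.Free R M) := by
  have h3' : SAC84.ln (R ⧸ Ideal.ofList rs)
      (maximalIdeal (R ⧸ Ideal.ofList rs) ^ 3 : Ideal (R ⧸ Ideal.ofList rs)) ≤
      SAC84.ln (R ⧸ Ideal.ofList rs) (maximalIdeal (R ⧸ Ideal.ofList rs)).annihilator := by
    rw [← SAC84.coe_ln, ← SAC84.coe_ln] at h3
    exact_mod_cast h3
  have hr' : 2 ≤ SAC84.ln (R ⧸ Ideal.ofList rs)
      (maximalIdeal (R ⧸ Ideal.ofList rs)).annihilator ∨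
      4 ≤ Module.finrank (ResidueField (R ⧸ Ideal.ofList rs))
        (CotangentSpace (R ⧸ Ideal.ofList rs)) := by
    refine hr.imp (fun h => ?_) id
    rw [← SAC84.coe_ln] at h
    exact_mod_cast h
  refine ⟨fun hex M hfin a hR hM => ?_, fun M hfin hR hM => ?_⟩
  · obtain ⟨N, hN⟩ := hM
    have G : ∀ M' : SAC84.FGM R, (∀ n, SAC84.ExtZ R M'.car R (n + 1)) →
        (∃ N : ℕ, ∀ n, N ≤ n → SAC84.ExtZ R M'.car M'.car n) → Module.Free R M'.car := by
      intro M' hR' hM'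
      obtain ⟨N', hN'⟩ := hM'
      refine SAC3.reduction hrs hreg (fun M'' hR'' hM'' => ?_) M' hR' hN'
      obtain ⟨N'', hN''⟩ := hM''
      refine SAC63.cube_free h3' hr' (hex.symm.imp (fun hex => ?_) id) M'' hR'' hN''
      intro r h1 h2 h4 h5 h6 h7
      refine hex ⟨r, h1, ?_, h4, ?_, h6, h7⟩
      · rw [← SAC84.coe_ln, h2]
      · rw [← SAC84.coe_ln, h5]
    let M' : SAC84.FGM R := ⟨M⟩
    have hpd : HasProjectiveDimensionLE M a :=
      SAC75.garc_strict G M' (a := a) (N := N) (fun n hn => hR n hn) (fun n hn => hN n hn)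
    refine ⟨hpd, fun ha => ?_, fun i hi => ?_⟩
    · subst ha
      exact G M' (fun n => hR _ (by omega)) ⟨N, fun n hn => hN n hn⟩
    · exact subsingleton_of_forall_eq 0 fun y =>
        Abelian.Ext.eq_zero_of_hasProjectiveDimensionLT y (a + 1) (by omega)
  · let M' : SAC84.FGM R := ⟨M⟩
    exact SAC63.reduction_arc hrs hreg
      (fun M'' hR'' hM'' => SAC63.arc_freeL' h3' hr' M'' hR'' hM'') M'
      (fun n => hR _ (by omega)) (fun n => hM _ (by omega))

end Pool.Agent.Results.MP_c1c126_al.CubeType
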