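import Mathlib
import Pool.Agent.Lib.SAC75.HFinal

set_option autoImplicit false

open CategoryTheory IsLocalRing

universe u

namespace Pool.Agent.Results.MP_c1c126_al.SmallLength

theorem result (R : Type u) [CommRing R] [IsNoetherianRing R] [IsLocalRing R]
    [HasExt.{u} (ModuleCat.{u} R)]
    (rs : List R) (hrs : ∀ x ∈ rs, x ∈ maximalIdeal R)
    (hreg : RingTheory.Sequence.IsWeaklyRegular R rs)
    [IsLocalRing (R ⧸ Ideal.ofList rs)]
    (c : ℕ) (hc : Module.length (R ⧸ Ideal.ofList rs) (R ⧸ Ideal.ofList rs) = c)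
    (hce : c + 4 < 4 * Module.finrank (ResidueField (R ⧸ Ideal.ofList rs))
      (CotangentSpace (R ⧸ Ideal.ofList rs)))
    (h2 : Module.length (R ⧸ Ideal.ofList rs)
        (maximalIdeal (R ⧸ Ideal.ofList rs)).annihilator = 2 →
      c < 3 * Module.finrank (ResidueField (R ⧸ Ideal.ofList rs))
        (CotangentSpace (R ⧸ Ideal.ofList rs)))
    (M : ModuleCat.{u} R) (hfin : Module.Finite R M) (a : ℕ)
    (hR : ∀ i : ℕ, a < i → Subsingleton (Abelian.Ext M (ModuleCat.of R R) i))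
    (hM : ∃ n : ℕ, ∀ i : ℕ, n ≤ i → Subsingleton (Abelian.Ext M M i)) :
    HasProjectiveDimensionLE M a ∧ (a = 0 → Module.Free R M) ∧
      ∀ i : ℕ, a < i → Subsingleton (Abelian.Ext M M i) := by
  have hart : IsArtinianRing (R ⧸ Ideal.ofList rs) := by
    have hfl : IsFiniteLength (R ⧸ Ideal.ofList rs) (R ⧸ Ideal.ofList rs) :=
      Module.length_ne_top_iff.1 (by rw [hc]; exact ENat.natCast_ne_top c)
    exact (isFiniteLength_iff_isNoetherian_isArtinian.1 hfl).2
  obtain ⟨N, hN⟩ := hM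
  have e1 : SAC84.ln (R ⧸ Ideal.ofList rs) (R ⧸ Ideal.ofList rs) = c := by
    rw [SAC84.ln, hc]; rfl
  have G : ∀ M' : SAC84.FGM R, (∀ n, SAC84.ExtZ R M'.car R (n + 1)) →
      (∃ N : ℕ, ∀ n, N ≤ n → SAC84.ExtZ R M'.car M'.car n) → Module.Free R M'.car := by
    intro M' hR' hM'
    obtain ⟨N', hN'⟩ := hM'
    refine SAC3.reduction hrs hreg (fun M'' hR'' hM'' => ?_) M' hR' hN'
    obtain ⟨N'', hN''⟩ := hM''
    refine SAC75.small_free (by omega) (fun h => ?_) M'' hR'' hN''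
    rw [e1]
    refine h2 ?_
    rw [← SAC84.coe_ln, h]
    rfl
  let M' : SAC84.FGM R := ⟨M⟩
  have hpd : HasProjectiveDimensionLE M a :=
    SAC75.garc_strict G M' (a := a) (N := N) (fun n hn => hR n hn) (fun n hn => hN n hn)
  refine ⟨hpd, fun ha => ?_, fun i hi => ?_⟩
  · subst ha
    exact G M' (fun n => hR _ (by omega)) ⟨N, fun n hn => hN n hn⟩
  · exact subsingleton_of_forall_eq 0 fun y =>
      Abelian.Ext.eq_zero_of_hasProjectiveDimensionLT y (a + 1) (by omega)

end Pool.Agent.Results.MP_c1c126_al.SmallLength
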