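import Mathlib
import Pool.Agent.Lib.SAC63.UMain
import Pool.Agent.Lib.SAC75.HFinal

set_option autoImplicit false

open CategoryTheory IsLocalRing

universe u

namespace Pool.Agent.Results.MP_c1c126_al.TypeLength

theorem result (R : Type u) [CommRing R] [IsNoetherianRing R] [IsLocalRing R]
    [HasExt.{u} (ModuleCat.{u} R)]
    (rs : List R) (hrs : ∀ x ∈ rs, x ∈ maximalIdeal R)
    (hreg : RingTheory.Sequence.IsWeaklyRegular R rs)
    [IsLocalRing (R ⧸ Ideal.ofList rs)]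
    (c e r s t : ℕ) (hc : Module.length (R ⧸ Ideal.ofList rs) (R ⧸ Ideal.ofList rs) = c)
    (he : Module.finrank (ResidueField (R ⧸ Ideal.ofList rs))
      (CotangentSpace (R ⧸ Ideal.ofList rs)) = e)
    (hr : Module.length (R ⧸ Ideal.ofList rs)
      (maximalIdeal (R ⧸ Ideal.ofList rs)).annihilator = r)
    (hs : Module.length (R ⧸ Ideal.ofList rs)
      (maximalIdeal (R ⧸ Ideal.ofList rs) ^ 2 :
        Ideal (R ⧸ Ideal.ofList rs)).annihilator = s)
    (ht : Module.length (R ⧸ Ideal.ofList rs)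
      (maximalIdeal (R ⧸ Ideal.ofList rs) ^ 3 : Ideal (R ⧸ Ideal.ofList rs)) = t)
    (hr2 : 2 ≤ r) (h11 : ¬ (r = 2 ∧ c = 11))
    (hU : ∀ y z : ℝ, y * z = c → 4 ≤ y → (r : ℝ) + 1 ≤ z → (e : ℝ) + 3 ≤ y + z →
      (s : ℝ) ≤ z + r * (y - 2) → (y - 1) * z ≤ e + 1 + (y - 2) * t →
      (∀ (J : Ideal (R ⧸ Ideal.ofList rs)) (p q : ℕ),
        Module.length (R ⧸ Ideal.ofList rs) ((R ⧸ Ideal.ofList rs) ⧸ J) = p →
        Module.length (R ⧸ Ideal.ofList rs)
          (maximalIdeal (R ⧸ Ideal.ofList rs) ^ 2 * J : Ideal (R ⧸ Ideal.ofList rs)) = q →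
        z ≤ p + q) → False)
    (M : ModuleCat.{u} R) (hfin : Module.Finite R M) (a : ℕ)
    (hR : ∀ i : ℕ, a < i → Subsingleton (Abelian.Ext M (ModuleCat.of R R) i))
    (hM : ∃ n : ℕ, ∀ i : ℕ, n ≤ i → Subsingleton (Abelian.Ext M M i)) :
    HasProjectiveDimensionLE M a ∧ (a = 0 → Module.Free R M) ∧
      ∀ i : ℕ, a < i → Subsingleton (Abelian.Ext M M i) := by
  have hart : IsArtinianRing (R ⧸ Ideal.ofList rs) := by
    have hfl : IsFiniteLength (R ⧸ Ideal.ofList rs) (R ⧸ Ideal.ofList rs) :=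
      Module.length_ne_top_iff.1 (by rw [hc]; exact ENat.natCast_ne_top c)
    exact (isFiniteLength_iff_isNoetherian_isArtinian.1 hfl).2
  obtain ⟨N, hN⟩ := hM
  have ec : SAC84.ln (R ⧸ Ideal.ofList rs) (R ⧸ Ideal.ofList rs) = c := by
    rw [SAC84.ln, hc]; rfl
  have er : SAC84.ln (R ⧸ Ideal.ofList rs)
      (maximalIdeal (R ⧸ Ideal.ofList rs)).annihilator = r := by
    rw [SAC84.ln, hr]; rfl
  have es : SAC84.ln (R ⧸ Ideal.ofList rs)
      (maximalIdeal (R ⧸ Ideal.ofList rs) ^ 2 :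
        Ideal (R ⧸ Ideal.ofList rs)).annihilator = s := by
    rw [SAC84.ln, hs]; rfl
  have et : SAC84.ln (R ⧸ Ideal.ofList rs)
      (maximalIdeal (R ⧸ Ideal.ofList rs) ^ 3 : Ideal (R ⧸ Ideal.ofList rs)) = t := by
    rw [SAC84.ln, ht]; rfl
  have G : ∀ M' : SAC84.FGM R, (∀ n, SAC84.ExtZ R M'.car R (n + 1)) →
      (∃ N : ℕ, ∀ n, N ≤ n → SAC84.ExtZ R M'.car M'.car n) → Module.Free R M'.car := by
    intro M' hR' hM'
    obtain ⟨N', hN'⟩ := hM'
    refine SAC3.reduction hrs hreg (fun M'' hR'' hM'' => ?_) M' hR' hN'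
    obtain ⟨N'', hN''⟩ := hM''
    by_contra hfree
    obtain ⟨y, z, h1, h2, h3, h4, h5, h6, h7⟩ := SAC63.thmU (by rw [er]; exact hr2)
      (by rw [er, ec]; exact fun h h' => h11 ⟨h, h'⟩) M'' hfree hR'' hN''
    rw [ec] at h1
    rw [er] at h3 h5
    rw [he] at h4 h6
    rw [es] at h5
    rw [et] at h6
    refine hU y z h1 h2 h3 h4 h5 h6 fun J p q hp hq => ?_
    have h8 := h7 J
    rw [SAC84.ln, SAC84.ln, hp, hq] at h8
    exact h8
  let M' : SAC84.FGM R := ⟨M⟩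
  have hpd : HasProjectiveDimensionLE M a :=
    SAC75.garc_strict G M' (a := a) (N := N) (fun n hn => hR n hn) (fun n hn => hN n hn)
  refine ⟨hpd, fun ha => ?_, fun i hi => ?_⟩
  · subst ha
    exact G M' (fun n => hR _ (by omega)) ⟨N, fun n hn => hN n hn⟩
  · exact subsingleton_of_forall_eq 0 fun y =>
      Abelian.Ext.eq_zero_of_hasProjectiveDimensionLT y (a + 1) (by omega)

end Pool.Agent.Results.MP_c1c126_al.TypeLength
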